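import Pool.Agent.H97.RL.Targets4
import Pool.Agent.H70.RKS.CN2

/-!
Row CNX of rlm_modules (helper20): some restriction is inconsistent with all wide lines
(first moment over the pairs of a value and a number below `Q` for every variable).
-/

set_option autoImplicit false

namespace Pool.Agent.H20.RLM

open Finset Pool.Agent.H97.RK Pool.Agent.H97.RL

/-- functions with prescribed sets of values on `T` -/
theorem cnx_count {α : Type} [Fintype α] [DecidableEq α] {n : ℕ} (T : Finset (Fin n))
    (S : Fin n → Finset α) (s : ℕ) (hS : ∀ u ∈ T, (S u).card = s) :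
    (univ.filter fun τ : Fin n → α => ∀ u ∈ T, τ u ∈ S u).card =
      s ^ T.card * Fintype.card α ^ (n - T.card) := by
  classical
  have h1 : (univ.filter fun τ : Fin n → α => ∀ u ∈ T, τ u ∈ S u) =
      Fintype.piFinset fun u => if u ∈ T then S u else univ := by
    ext τ
    rw [mem_filter, Fintype.mem_piFinset]
    constructor
    · rintro ⟨-, h⟩ u
      by_cases hu : u ∈ T
      · rw [if_pos hu]
        exact h u hu
      · rw [if_neg hu]
        exact mem_univ _
    · intro h
      refine ⟨mem_univ _, fun u hu => ?_⟩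
      have := h u
      rwa [if_pos hu] at this
  rw [h1, Fintype.card_piFinset]
  have h2 : ∀ u : Fin n, (if u ∈ T then S u else univ).card =
      if u ∈ T then s else Fintype.card α := by
    intro u
    by_cases hu : u ∈ T
    · rw [if_pos hu, if_pos hu]
      exact hS u hu
    · rw [if_neg hu, if_neg hu]
      exact card_univ
  rw [prod_congr rfl fun u _ => h2 u, prod_ite, prod_const, prod_const]
  have h3 : (univ.filter fun u => u ∈ T) = T := by
    ext u
    simp
  have h4 : (univ.filter fun u => u ∉ T).card = n - T.card := by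
    have h5 : (univ.filter fun u => u ∉ T) = Tᶜ := by
      ext u
      simp
    rw [h5, card_compl, Fintype.card_fin]
  rw [h3, h4]

theorem cnx_mono {a b c d n : ℕ} (hab : a ≤ b) (hcd : c ≤ d) (hdn : d ≤ n) :
    a ^ d * b ^ (n - d) ≤ a ^ c * b ^ (n - c) := by
  obtain ⟨e, rfl⟩ := Nat.exists_eq_add_of_le hcd
  have h1 : n - c = e + (n - (c + e)) := by omega
  rw [h1, pow_add, pow_add, ← mul_assoc]
  exact Nat.mul_le_mul_right _ (Nat.mul_le_mul_left _ (Nat.pow_le_pow_left hab e))

/-- the restricted variables of `τ` -/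
def cnxA {n Q : ℕ} (τ : Fin n → Bool × Fin Q) : Finset (Fin n) :=
  univ.filter fun v => ((τ v).2 : ℕ) = 0

theorem cnx_first {n Q : ℕ} (hQ : 1 ≤ Q) :
    2 * (univ.filter fun τ : Fin n → Bool × Fin Q => 2 * n < Q * (cnxA τ).card).card ≤
      (2 * Q) ^ n := by
  classical
  set B := univ.filter fun τ : Fin n → Bool × Fin Q => 2 * n < Q * (cnxA τ).card with hB
  have hv : ∀ v : Fin n,
      (univ.filter fun τ : Fin n → Bool × Fin Q => ((τ v).2 : ℕ) = 0).card =
        2 * (2 * Q) ^ (n - 1) := by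
    intro v
    have h := cnx_count (α := Bool × Fin Q) ({v} : Finset (Fin n))
      (fun _ => univ.filter fun p : Bool × Fin Q => (p.2 : ℕ) = 0) 2 (by
        intro u _
        have : (univ.filter fun p : Bool × Fin Q => (p.2 : ℕ) = 0) =
            (univ : Finset Bool) ×ˢ ({(⟨0, hQ⟩ : Fin Q)} : Finset (Fin Q)) := by
          ext ⟨b, q⟩
          rw [mem_filter, mem_product, mem_singleton, Fin.ext_iff]
          exact ⟨fun h => ⟨mem_univ _, h.2⟩, fun h => ⟨mem_univ _, h.2⟩⟩
        rw [this, card_product, card_singleton, card_univ, Fintype.card_bool])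
    have hset : (univ.filter fun τ : Fin n → Bool × Fin Q => ((τ v).2 : ℕ) = 0) =
        univ.filter fun τ : Fin n → Bool × Fin Q => ∀ u ∈ ({v} : Finset (Fin n)),
          τ u ∈ univ.filter fun p : Bool × Fin Q => (p.2 : ℕ) = 0 := by
      ext τ
      simp
    rw [hset, h, card_singleton, Fintype.card_prod, Fintype.card_bool, Fintype.card_fin, pow_one]
  have hsum : ∑ τ : Fin n → Bool × Fin Q, Q * (cnxA τ).card = n * (2 * Q) ^ n := by
    rw [← mul_sum]
    have h1 : ∀ τ : Fin n → Bool × Fin Q, (cnxA τ).card =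
        ∑ v : Fin n, if ((τ v).2 : ℕ) = 0 then 1 else 0 := by
      intro τ
      unfold cnxA
      rw [card_filter]
    rw [sum_congr rfl fun τ _ => h1 τ, sum_comm]
    have h2 : ∀ v : Fin n, ∑ τ : Fin n → Bool × Fin Q, (if ((τ v).2 : ℕ) = 0 then 1 else 0) =
        2 * (2 * Q) ^ (n - 1) := by
      intro v
      rw [← card_filter]
      exact hv v
    rw [sum_congr rfl fun v _ => h2 v, sum_const, card_univ, Fintype.card_fin, smul_eq_mul]
    rcases Nat.eq_zero_or_pos n with h0 | h0
    · subst h0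
      simp
    · obtain ⟨m, rfl⟩ := Nat.exists_eq_succ_of_ne_zero h0.ne'
      rw [Nat.succ_sub_one, pow_succ]
      ring
  have hmark : B.card * (2 * n + 1) ≤ n * (2 * Q) ^ n := by
    rw [← hsum, ← smul_eq_mul, ← sum_const]
    calc ∑ _τ ∈ B, (2 * n + 1) ≤ ∑ τ ∈ B, Q * (cnxA τ).card := by
          refine sum_le_sum fun τ hτ => ?_
          exact (mem_filter.1 hτ).2
      _ ≤ ∑ τ : Fin n → Bool × Fin Q, Q * (cnxA τ).card :=
          sum_le_sum_of_subset (subset_univ _)
  have h3 : (2 * B.card) * (2 * n + 1) ≤ (2 * Q) ^ n * (2 * n + 1) := by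
    have : (2 * Q) ^ n * (2 * n + 1) = 2 * (n * (2 * Q) ^ n) + (2 * Q) ^ n := by ring
    rw [this]
    have : (2 * B.card) * (2 * n + 1) = 2 * (B.card * (2 * n + 1)) := by ring
    rw [this]
    omega
  exact Nat.le_of_mul_le_mul_right h3 (by omega)

theorem pf_CNX : T_CNX := by
  classical
  intro n t w Q line U hQ htw hwn hwide hsmall
  let val : ℕ → Fin n → Bool := fun l u => decide ((u, false) ∈ line l)
  let E : ℕ → Finset (Fin n) → Finset (Fin n → Bool × Fin Q) := fun l D =>
    univ.filter fun τ : Fin n → Bool × Fin Q => ∀ u ∈ vs (line l) \ D,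
      τ u ∈ (univ : Finset (Bool × Fin Q)).erase (!(val l u), (⟨0, hQ⟩ : Fin Q))
  let B1 := univ.filter fun τ : Fin n → Bool × Fin Q => 2 * n < Q * (cnxA τ).card
  let B2 := U.biUnion fun l => (Pool.Agent.H70.RKS.ball n t).biUnion fun D => E l D
  have hB1 : 2 * B1.card ≤ (2 * Q) ^ n := cnx_first hQ
  have hE : ∀ l ∈ U, ∀ D ∈ Pool.Agent.H70.RKS.ball n t,
      (E l D).card ≤ (2 * Q - 1) ^ (w - t) * (2 * Q) ^ (n - (w - t)) := by
    intro l hl D hD
    have h1 : (E l D).card = (2 * Q - 1) ^ (vs (line l) \ D).card *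
        Fintype.card (Bool × Fin Q) ^ (n - (vs (line l) \ D).card) := by
      refine cnx_count (vs (line l) \ D)
        (fun u => (univ : Finset (Bool × Fin Q)).erase (!(val l u), (⟨0, hQ⟩ : Fin Q)))
        (2 * Q - 1) fun u _ => ?_
      rw [card_erase_of_mem (mem_univ _), card_univ, Fintype.card_prod, Fintype.card_bool,
        Fintype.card_fin]
    rw [h1, Fintype.card_prod, Fintype.card_bool, Fintype.card_fin]
    have hDt : D.card ≤ t := (mem_filter.1 hD).2
    have hc : (vs (line l)).card - D.card ≤ (vs (line l) \ D).card := le_card_sdiff D (vs (line l))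
    have hw := hwide l hl
    have hn : (vs (line l) \ D).card ≤ n := by
      have := card_le_univ (vs (line l) \ D)
      rwa [Fintype.card_fin] at this
    exact cnx_mono (by omega) (by omega) hn
  have hB2 : B2.card ≤ U.card * (bl n t * ((2 * Q - 1) ^ (w - t) * (2 * Q) ^ (n - (w - t)))) := by
    refine card_biUnion_le_card_mul _ _ _ fun l hl => ?_
    refine (card_biUnion_le_card_mul _ _ _ (hE l hl)).trans ?_
    exact Nat.mul_le_mul_right _ (Pool.Agent.H70.RKS.card_ball n t)
  have hex : ∃ τ : Fin n → Bool × Fin Q, τ ∉ B1 ∪ B2 := by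
    by_contra hno
    push Not at hno
    have h1 : (B1 ∪ B2) = univ := eq_univ_iff_forall.2 hno
    have h2 : (B1 ∪ B2).card ≤ B1.card + B2.card := card_union_le _ _
    rw [h1, card_univ, Fintype.card_fun, Fintype.card_prod, Fintype.card_bool, Fintype.card_fin,
      Fintype.card_fin] at h2
    omega
  obtain ⟨τ, hτ⟩ := hex
  rw [mem_union, not_or] at hτ
  obtain ⟨hτ1, hτ2⟩ := hτ
  refine ⟨fun v => (τ v).1, cnxA τ, ?_, ?_⟩
  · by_contra hlt
    exact hτ1 (mem_filter.2 ⟨mem_univ _, not_le.1 hlt⟩)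
  · intro l hl y hy
    by_contra hle
    rw [not_lt] at hle
    refine hτ2 (mem_biUnion.2 ⟨l, hl, mem_biUnion.2
      ⟨(cnxA τ).filter fun v => y v ≠ (τ v).1, ?_, ?_⟩⟩)
    · unfold Pool.Agent.H70.RKS.ball
      exact mem_filter.2 ⟨mem_univ _, hle⟩
    · refine mem_filter.2 ⟨mem_univ _, fun u hu => ?_⟩
      rw [mem_sdiff] at hu
      obtain ⟨hu1, hu2⟩ := hu
      rw [mem_erase]
      refine ⟨fun heq => hu2 ?_, mem_univ _⟩
      have h1 : (τ u).1 = !(val l u) := by rw [heq]
      have h2 : ((τ u).2 : ℕ) = 0 := by rw [heq]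
      have h3 : y u = val l u := Pool.Agent.H70.RKS.fals_val hy hu1
      rw [mem_filter]
      refine ⟨mem_filter.2 ⟨mem_univ _, h2⟩, ?_⟩
      rw [h1, h3]
      cases val l u <;> simp

end Pool.Agent.H20.RLM
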